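import Pool.Agent.H5.DPG.Stmts

/-!
# Board dpg, row BTJ: small closed regions are contained in `Tj`
-/

set_option autoImplicit false

namespace Pool.DPG

open Filter TMLib Pool.PG

private lemma btj_len (n : ℕ) (f : ℕ → Bool) (B : Finset ℕ)
    (h : ∀ u, u < n → f u = true → u ∈ B) : ((List.range n).filter f).length ≤ B.card := by
  have hnd : ((List.range n).filter f).Nodup := List.nodup_range.filter _
  rw [← List.toFinset_card_of_nodup hnd]
  refine Finset.card_le_card ?_
  intro u hu
  rw [List.mem_toFinset, List.mem_filter, List.mem_range] at hu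
  exact h u hu.1 hu.2

/-- BTJ -/
theorem btj_thm (hFSB : FSBStmt) : BTJStmt := by
  intro g X j s B hD hC hB
  obtain ⟨hBX, hcl, -⟩ := hD
  intro v hv
  have hvX := hBX hv
  have hvX' := hvX
  rw [fs, Finset.mem_filter, Finset.mem_range] at hvX'
  rw [Tj, (hFSB.1 g _).2, Finset.mem_filter, Finset.mem_range]
  refine ⟨hvX'.1, ?_⟩
  rw [Bool.and_eq_true, Bool.and_eq_true]
  refine ⟨⟨hvX'.2, ?_⟩, ?_⟩
  · rw [decide_eq_true_iff]
    refine lt_of_le_of_lt (btj_len _ _ B ?_) hB
    intro u hu h
    rw [Bool.and_eq_true, Bool.and_eq_true, beq_iff_eq, decide_eq_true_iff] at h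
    by_contra huB
    have huX : u ∈ fs g X := by
      rw [fs, Finset.mem_filter, Finset.mem_range]
      exact ⟨hu, h.1.1⟩
    exact hC u huX huB h.1.2 v hvX h.2 hv
  · rw [Bool.or_eq_true, beq_iff_eq, decide_eq_true_iff]
    by_cases hj : own g v = j
    · exact Or.inl hj
    · right
      refine lt_of_le_of_lt (btj_len _ _ B ?_) hB
      intro w hw h
      rw [Bool.and_eq_true, decide_eq_true_iff] at h
      refine hcl v hv hj w ?_ h.2
      rw [fs, Finset.mem_filter, Finset.mem_range]
      exact ⟨hw, h.1⟩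

end Pool.DPG
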